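import Pool.Agent.Helper32.SD.Base
import Pool.Agent.Helper51.CD.CertDefs

/-!
# SP: order complexes of posets whose lower intervals of even rank are good, definitions
-/

open Finset

namespace Pool.Agent.Helper32.SP

open Pool.Agent.Helper51.CD Pool.Agent.Helper51.CD.Cube

/-- `EvenSphere Q`: the maximal elements of `Q` can be ordered, `F 0, ..., F (s-1)`, with `s ≥ 2`,
such that every other element of `Q` lies below at least two of them and, for `0 < i < s - 1`, the
set of the elements of `Q` below `F i`, below an earlier `F j` and below a later `F j` is again an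
`EvenSphere`. (The set of the proper faces of a convex polytope of odd dimension is an example: a
line shelling. So are all shellable simplicial spheres of even dimension.) -/
inductive EvenSphere {P : Type} [PartialOrder P] : Set P → Prop
  | mk (Q : Set P) (s : ℕ) (F : ℕ → P) (h2 : 2 ≤ s) (hF : ∀ i < s, F i ∈ Q)
      (hanti : ∀ i < s, ∀ j < s, F i ≤ F j → i = j)
      (hcov : ∀ A ∈ Q, ∃ j < s, A ≤ F j)
      (hcl : ∀ A ∈ Q, ∀ i < s, A < F i → ∃ j < s, j ≠ i ∧ A ≤ F j)
      (hgood : ∀ i, 0 < i → i + 1 < s →
        EvenSphere {A | A ∈ Q ∧ A < F i ∧ (∃ j < i, A ≤ F j) ∧ ∃ j, i < j ∧ j < s ∧ A ≤ F j}) :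
      EvenSphere Q

/-- The graph `H` with the rank function `rk` is the comparability graph of a poset. -/
structure Ranked {Y : Type} (H : SimpleGraph Y) (rk : Y → ℕ) (n : ℕ) : Prop where
  one : ∀ x, 1 ≤ rk x
  le : ∀ x, rk x ≤ 2 * n
  ne : ∀ x y, H.Adj x y → rk x ≠ rk y
  trans : ∀ x y z, H.Adj x y → H.Adj y z → rk x < rk y → rk y < rk z → H.Adj x z

open scoped Classical in
/-- The elements below `y`. -/
noncomputable def lowr {Y : Type} [Fintype Y] (H : SimpleGraph Y) (rk : Y → ℕ) (y : Y) :
    Finset Y := univ.filter (fun x => H.Adj x y ∧ rk x < rk y)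

theorem mem_lowr {Y : Type} [Fintype Y] {H : SimpleGraph Y} {rk : Y → ℕ} {x y : Y} :
    x ∈ lowr H rk y ↔ H.Adj x y ∧ rk x < rk y := by
  classical
  unfold lowr
  simp only [mem_filter, mem_univ, true_and]

end Pool.Agent.Helper32.SP
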