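import Pool.Agent.Helper32.SD.Join

/-!
# SP: the join of a good complex with any complex is good, for a fixed system
-/

open Finset Pool.Agent.Helper51.CD

namespace Pool.Agent.Helper32.SP

open Pool.Agent.Helper32.SD

theorem goodK_join {X : Type} [Fintype X] [LinearOrder X] {V : Type} [AddCommGroup V] [Module ℚ V]
    {G : SimpleGraph X} {s : X → Module.End ℚ V} (hs : IsSys G s) {K M : Set (Finset X)}
    (hcx : IsCx G K) (hK : GoodK K s) (hM : IsCx G M) (h0 : ∅ ∈ M)
    (hadj : ∀ α ∈ K, ∀ β ∈ M, ∀ x ∈ α, ∀ y ∈ β, G.Adj x y) : GoodK (jn K M) s := by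
  obtain ⟨n, hn⟩ : ∃ n, Set.ncard {y : X | ({y} : Finset X) ∈ M} = n := ⟨_, rfl⟩
  induction n using Nat.strong_induction_on generalizing M with
  | _ n ih =>
    by_cases hv : ∃ y : X, ({y} : Finset X) ∈ M
    · obtain ⟨y, hy⟩ := hv
      have hD := joinDel_isCx (y := y) hM
      have hL := joinLk_isCx (y := y) hM
      have hDsub : ∀ β ∈ joinDel M y, β ∈ M := fun β hβ => hβ.1
      have hLsub : ∀ β ∈ joinLk M y, β ∈ M := fun β hβ => (joinLk_sub hM hβ).1
      have hlt : ∀ M' : Set (Finset X), (∀ β ∈ M', β ∈ M) → ({y} : Finset X) ∉ M' →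
          Set.ncard {z : X | ({z} : Finset X) ∈ M'} < n := by
        intro M' h1 h2
        rw [← hn]
        refine Set.ncard_lt_ncard ⟨fun z hz => h1 _ hz, fun h => h2 (h hy)⟩ (Set.toFinite _)
      have hj1 : GoodK (jn K (joinDel M y)) s := by
        refine ih _ (hlt _ hDsub fun h => h.2 (Finset.mem_singleton_self y)) hD
          ⟨h0, Finset.notMem_empty y⟩ (fun α hα β hβ => hadj α hα β (hDsub β hβ)) rfl
      have hj2 : GoodK (jn K (joinLk M y)) s := by
        refine ih _ (hlt _ hLsub fun h => h.1 (Finset.mem_singleton_self y)) hL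
          ⟨Finset.notMem_empty y, hy⟩ (fun α hα β hβ => hadj α hα β (hLsub β hβ)) rfl
      have c1 : IsCx G (jn K (joinDel M y)) :=
        jn_isCx hcx hD (fun α hα β hβ => hadj α hα β (hDsub β hβ))
      have c2 : IsCx G (jn K (joinLk M y)) :=
        jn_isCx hcx hL (fun α hα β hβ => hadj α hα β (hLsub β hβ))
      have hu : ∀ τ ∈ jn K (joinLk M y), y ∉ τ ∧ ∀ x ∈ τ, G.Adj y x := by
        rintro τ ⟨α, hα, β, hβ, rfl⟩
        refine ⟨?_, fun x hx => ?_⟩
        · rw [Finset.mem_union]
          rintro (h | h)
          · exact join_notMem hy hadj hα h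
          · exact hβ.1 h
        · rcases Finset.mem_union.1 hx with hx | hx
          · exact (hadj α hα {y} hy x hx y (Finset.mem_singleton_self y)).symm
          · refine hM.clique _ hβ.2 ?_ ?_ ?_
            · exact Finset.mem_coe.2 (Finset.mem_insert_self y β)
            · exact Finset.mem_coe.2 (Finset.mem_insert_of_mem hx)
            · rintro rfl
              exact hβ.1 hx
      have c3 : IsCx G (cn y (jn K (joinLk M y))) := by
        constructor
        · intro τ hτ a ha b hb hab
          have hτ' : τ.erase y ∈ jn K (joinLk M y) := hτ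
          rw [Finset.mem_coe] at ha hb
          by_cases h : a = y
          · subst h
            exact (hu _ hτ').2 b (Finset.mem_erase.2 ⟨Ne.symm hab, hb⟩)
          · by_cases h' : b = y
            · subst h'
              exact ((hu _ hτ').2 a (Finset.mem_erase.2 ⟨hab, ha⟩)).symm
            · exact c2.clique _ hτ' (Finset.mem_coe.2 (Finset.mem_erase.2 ⟨h, ha⟩))
                (Finset.mem_coe.2 (Finset.mem_erase.2 ⟨h', hb⟩)) hab
        · intro τ hτ ρ hρ
          exact c2.down _ hτ _ (Finset.erase_subset_erase y hρ)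
      have c4 : IsCx G (jn K (joinDel M y) ∪ cn y (jn K (joinLk M y))) := by
        constructor
        · rintro τ (hτ | hτ)
          · exact c1.clique τ hτ
          · exact c3.clique τ hτ
        · rintro τ (hτ | hτ) ρ hρ
          · exact Or.inl (c1.down τ hτ ρ hρ)
          · exact Or.inr (c3.down τ hτ ρ hρ)
      rw [join_split hM hy hadj]
      refine tk_union hs c1 c3 c4 hj1 (tk_cone hs c2 c3 hu hj2) ?_
      rw [join_meet hcx hM hy hadj]
      exact hj2
    · have hM0 : ∀ β, β ∈ M ↔ β = ∅ := by
        intro β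
        constructor
        · intro hβ
          rw [Finset.eq_empty_iff_forall_notMem]
          intro x hx
          exact hv ⟨x, hM.down β hβ {x} (Finset.singleton_subset_iff.2 hx)⟩
        · rintro rfl
          exact h0
      have hEq : jn K M = K := by
        ext τ
        constructor
        · rintro ⟨α, hα, β, hβ, rfl⟩
          rw [(hM0 β).1 hβ, Finset.union_empty]
          exact hα
        · intro hτ
          exact ⟨τ, hτ, ∅, h0, Finset.union_empty τ⟩
      rw [hEq]
      exact hK

end Pool.Agent.Helper32.SP
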