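import Pool.Agent.Helper32.SP.Defs
import Pool.Agent.Helper32.SP.Join
import Pool.Agent.Helper32.BL.Compare
import Pool.Agent.Helper51.CD.Const

/-!
# SP-2 Low: comparison with constant coefficients below the middle

`vanSys T S s x = 1` for `x ∈ T` and `tw S s x` otherwise. See BL/Compare.lean (`lower_van`, `compare`)
for the pattern (`vanSys_tw`, `vanSys_update`, `triv_down`, `van_fam_mem`, `hd_eq`, `hd_le`).

PROOF of `starP`. `a` even: let `B = commonNbrs H ρ`, `K = cliquesIn H (lowr H rk z)`,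
`M = cliquesIn H (B \ lowr H rk z)`. Every element below `z` is adjacent to all elements of `ρ`
(`trans`), so `lowr H rk z ⊆ B`; an element of `B \ lowr` has rank `> a` (`ne`: it is adjacent to `z`), so it
is adjacent to all elements of `lowr` (`trans`); `cliquesIn H B = jn K M`. The system
`t = vanSys T S s` agrees with `tw S s` on `lowr H rk z`, so `GoodK K t` (from `hE z`; `ex_congr`,
twists compose: `vanSys_tw` or as in `lower_van`); `goodK_join`, then `ex_star` (with `ρ`).
`a` odd (strong induction on `a`): `2 d + a ≤ 4 n`. First `T = ρᶜ`: the system is `1` outside `ρ`: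
exact in degree `d < 2 n` by `const_ex` (all members of the link: `hC`, `j + |ρ| < 2 n`; if
`const_ex` is stated only for `2 d < 2 n + |ρ|`, apply it with its `n` replaced by
`2 n - |ρ|` or so, or use `const_one` + `ex_star` directly). Then remove from `T`, one after the other in
the order of increasing rank, the elements `x` of rank `< a`: `triv_down` needs the star of `x` in degree
`d + 1` for the system twisted at `x`, which is `starP` for `insert x ρ` and `x` (of rank `r < a`;
`r` even, or `r ≤ a - 2` and `2 (d + 1) + r ≤ 4 n`) up to the values at elements that are not adjacent to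
`x` (`ex_congr`: the members of `fam H (insert x ρ) univ` consist of elements of `insert x ρ` and elements
adjacent to `x`). If `insert x ρ` is not a clique, the star is empty. A convenient induction: over finsets
`B` of elements of rank `< a` that are closed under smaller rank, `T = ρᶜ \ B`.
PROOF of `compareP`: as `compare` (induction over sets `B` closed under smaller rank, `T = Bᶜ`), with
`starP` for `ρ = {x}`, `a = rk x`, degrees `e` with `2 e < 2 n + 1`: `a` even or `a ≤ 2 n - 1`, then
`2 e + a ≤ 4 n`.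
-/

open Finset Pool.Agent.Helper51.CD Pool.Agent.Helper51.CD.Cube

namespace Pool.Agent.Helper32.SP

open Pool.Agent.Helper32.SD Pool.Agent.Helper32.BL

namespace Low

variable {Y : Type} [Fintype Y] [LinearOrder Y] {V : Type} [AddCommGroup V] [Module ℚ V]
  [FiniteDimensional ℚ V]
  {H : SimpleGraph Y} {rk : Y → ℕ} {n : ℕ} {s : Y → Module.End ℚ V}

omit [Fintype Y] [LinearOrder Y] [FiniteDimensional ℚ V] in
theorem tw_empty (t : Y → Module.End ℚ V) : tw ∅ t = t := by
  funext x
  unfold tw
  rw [if_neg (Set.notMem_empty x)]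

omit [Fintype Y] [LinearOrder Y] [FiniteDimensional ℚ V] in
theorem tw_tw (S S' : Set Y) (t : Y → Module.End ℚ V) :
    ∃ S'' : Set Y, tw S' (tw S t) = tw S'' t := by
  refine ⟨{x | ¬ (x ∈ S ↔ x ∈ S')}, ?_⟩
  funext x
  unfold tw
  by_cases h : x ∈ S <;> by_cases h' : x ∈ S' <;> simp [h, h']

/-- Exactness for a system that is trivial outside `ρ`. -/
theorem one_ex {ρ : Finset Y} (hρ : H.IsClique (ρ : Set Y)) {t : Y → Module.End ℚ V}
    (ht : IsSys H t) (h1 : ∀ x, x ∉ ρ → t x = 1) (d : ℤ)
    (hb : ∀ j : ℕ, (j : ℤ) = d - ρ.card → ExactLink H ρ j) : ExAt (fam H ρ univ) t d := by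
  have hA : ∀ x, x ∈ commonNbrs H ρ ↔ ∀ y ∈ ρ, H.Adj y x := by
    intro x
    unfold commonNbrs
    simp only [mem_filter, mem_univ, true_and]
  have hone : ExAt (fam H ∅ (commonNbrs H ρ)) (fun _ : Y => (1 : Module.End ℚ V))
      (d - ρ.card) := by
    rcases lt_or_ge (d - (ρ.card : ℤ)) 0 with h | h
    · intro c hc _
      refine ⟨0, Submodule.zero_mem _, ?_⟩
      rw [map_zero]
      funext τ
      exact (hc.2.1 τ (by omega)).symm
    · obtain ⟨j, hj⟩ := Int.eq_ofNat_of_zero_le h
      rw [hj]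
      refine const_one _ j ?_
      intro f hf
      obtain ⟨g, hg⟩ := hb j hj.symm f (fun τ hτ hc => by
        obtain ⟨h2, h3⟩ := mem_cliquesIn.1 hτ
        exact hf τ h2 h3 hc)
      exact ⟨g, fun τ h2 h3 hc => hg τ (mem_cliquesIn.2 ⟨h2, h3⟩) hc⟩
  have hcon : ExAt (fam H ∅ (commonNbrs H ρ)) t (d - ρ.card) := by
    refine ex_congr ?_ hone
    intro τ hτ x hx
    obtain ⟨h2, _⟩ := const_mem.1 hτ
    have hxA := (hA x).1 (h2 hx)
    exact (h1 x (fun h => H.loopless.irrefl x (hxA x h))).symm
  have hstar := ex_star ht ρ (commonNbrs H ρ) hρ (fun x hx y hy => (hA x).1 hx y hy) hcon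
  rw [sub_add_cancel, const_fam ρ _ hA] at hstar
  exact hstar

omit [FiniteDimensional ℚ V] in
/-- Two systems that agree on the cliques containing `insert u ρ`. -/
theorem sys_congr (hR : Ranked H rk n) {ρ : Finset Y} {u : Y} {B : Finset Y}
    (huB : u ∈ B) (hmax : ∀ x ∈ B, rk x ≤ rk u) (hcl : ∀ x ∈ B, ∀ y, rk y < rk x → y ∈ B)
    (S : Set Y) {d : ℤ}
    (e : ExAt (fam H (insert u ρ) univ)
      (vanSys (univ.filter fun x => rk u ≤ rk x ∧ x ∉ insert u ρ) S s) d) :
    ExAt (fam H (insert u ρ) univ) (vanSys (ρᶜ \ B) S s) d := by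
  refine ex_congr ?_ e
  rintro τ ⟨h1, -, h3⟩ x hx
  unfold vanSys
  by_cases hxr : x ∈ insert u ρ
  · rw [if_neg, if_neg]
    · rcases mem_insert.1 hxr with h | h
      · rw [h, mem_sdiff]
        exact fun h4 => h4.2 huB
      · rw [mem_sdiff, mem_compl]
        exact fun h4 => h4.1 h
    · rw [mem_filter]
      exact fun h4 => h4.2.2 hxr
  · have hxu : u ≠ x := fun h => hxr (h ▸ mem_insert_self u ρ)
    have hadj : H.Adj u x :=
      h3 (mem_coe.2 (h1 (mem_insert_self u ρ))) (mem_coe.2 hx) hxu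
    have hne := hR.ne u x hadj
    rcases lt_or_gt_of_ne hne with h | h
    · rw [if_pos, if_pos]
      · rw [mem_sdiff, mem_compl]
        exact ⟨fun h4 => hxr (mem_insert_of_mem h4), fun h4 => absurd (hmax x h4) (not_le.2 h)⟩
      · rw [mem_filter]
        exact ⟨mem_univ x, h.le, hxr⟩
    · rw [if_neg, if_neg]
      · rw [mem_sdiff]
        exact fun h4 => h4.2 (hcl u huB x h)
      · rw [mem_filter]
        exact fun h4 => absurd h4.2.1 (not_le.2 h)

/-- Removing the elements of a lower set from the trivial part. -/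
theorem step_sdiff {ρ B : Finset Y} {u : Y} (hu : u ∉ ρ) (huB : u ∉ B) :
    insert u (ρᶜ \ insert u B) = ρᶜ \ B := by
  ext x
  simp only [mem_insert, mem_compl, mem_sdiff]
  constructor
  · rintro (h2 | h2)
    · rw [h2]
      exact ⟨hu, huB⟩
    · exact ⟨h2.1, fun h3 => h2.2 (Or.inr h3)⟩
  · intro h2
    by_cases h3 : x = u
    · exact Or.inl h3
    · exact Or.inr ⟨h2.1, fun h4 => h4.elim h3 h2.2⟩

omit [Fintype Y] in
theorem step_closed {B : Finset Y} {u : Y} (hmax : ∀ x ∈ B, rk x ≤ rk u)
    (hcl : ∀ x ∈ insert u B, ∀ y, rk y < rk x → y ∈ insert u B) :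
    ∀ x ∈ B, ∀ y, rk y < rk x → y ∈ B := by
  intro x hx y hy
  rcases mem_insert.1 (hcl x (mem_insert_of_mem hx) y hy) with h | h
  · subst h
    exact absurd (hmax x hx) (not_le.2 hy)
  · exact h

omit [FiniteDimensional ℚ V] in
/-- The elements below `z` and the others form a join. -/
theorem even_case (hR : Ranked H rk n) (hs : IsSys H s)
    (hE : ∀ y, Even (rk y) → GoodK (cliquesIn H (lowr H rk y) : Set (Finset Y)) s)
    {ρ : Finset Y} (hρ : H.IsClique (ρ : Set Y)) {z : Y} (hz : z ∈ ρ) (hev : Even (rk z))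
    (hlow : ∀ x ∈ ρ, x ≠ z → rk z < rk x) (S : Set Y) (d : ℤ) :
    ExAt (fam H ρ univ) (vanSys (univ.filter fun x => rk z ≤ rk x ∧ x ∉ ρ) S s) d := by
  classical
  set T : Finset Y := univ.filter fun x => rk z ≤ rk x ∧ x ∉ ρ with hT
  have ht : IsSys H (vanSys T S s) := vanSys_isSys hs T S
  have hA : ∀ x, x ∈ commonNbrs H ρ ↔ ∀ y ∈ ρ, H.Adj y x := by
    intro x
    unfold commonNbrs
    simp only [mem_filter, mem_univ, true_and]
  have hlB : ∀ x ∈ lowr H rk z, x ∈ commonNbrs H ρ := by
    intro x hx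
    obtain ⟨h1, h2⟩ := mem_lowr.1 hx
    rw [hA]
    intro y hy
    by_cases hyz : y = z
    · rw [hyz]
      exact h1.symm
    · have h3 : H.Adj z y := hρ (mem_coe.2 hz) (mem_coe.2 hy) (Ne.symm hyz)
      exact (hR.trans x z y h1 h3 h2 (hlow y hy hyz)).symm
  have hup : ∀ y ∈ commonNbrs H ρ, y ∉ lowr H rk z → ∀ x ∈ lowr H rk z, H.Adj x y := by
    intro y hy hyl x hx
    obtain ⟨h1, h2⟩ := mem_lowr.1 hx
    have h3 : H.Adj z y := (hA y).1 hy z hz
    have h4 : rk z < rk y := by
      rcases lt_or_gt_of_ne (hR.ne z y h3) with h | h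
      · exact h
      · exact absurd (mem_lowr.2 ⟨h3.symm, h⟩) hyl
    exact hR.trans x z y h1 h3 h2 h4
  have hcxA : ∀ A : Finset Y, IsCx H (cliquesIn H A : Set (Finset Y)) := by
    intro A
    constructor
    · intro τ hτ
      exact (mem_cliquesIn.1 (mem_coe.1 hτ)).2
    · intro τ hτ σ hσ
      obtain ⟨h1, h2⟩ := mem_cliquesIn.1 (mem_coe.1 hτ)
      exact mem_coe.2 (mem_cliquesIn.2 ⟨hσ.trans h1, h2.subset (coe_subset.2 hσ)⟩)
  have hgood : GoodK (cliquesIn H (lowr H rk z) : Set (Finset Y)) (vanSys T S s) := by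
    intro S' d'
    obtain ⟨S'', hS''⟩ := tw_tw (V := V) S S' s
    refine ex_congr ?_ (hE z hev S'' d')
    intro τ hτ x hx
    obtain ⟨h1, -⟩ := mem_cliquesIn.1 (mem_coe.1 hτ)
    obtain ⟨-, h3⟩ := mem_lowr.1 (h1 hx)
    have hxT : x ∉ T := by
      rw [hT, mem_filter]
      exact fun h => absurd h.2.1 (not_le.2 h3)
    rw [← hS'']
    unfold tw vanSys
    rw [if_neg hxT]
    rfl
  have hj := goodK_join ht (hcxA (lowr H rk z)) hgood (hcxA (commonNbrs H ρ \ lowr H rk z))
    (mem_coe.2 (mem_cliquesIn.2 ⟨empty_subset _, by simp⟩)) (by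
      intro α hα β hβ x hx y hy
      obtain ⟨h1, -⟩ := mem_cliquesIn.1 (mem_coe.1 hα)
      obtain ⟨h2, -⟩ := mem_cliquesIn.1 (mem_coe.1 hβ)
      obtain ⟨h3, h4⟩ := mem_sdiff.1 (h2 hy)
      exact hup y h3 h4 x (h1 hx))
  have hEq : jn (cliquesIn H (lowr H rk z) : Set (Finset Y))
      (cliquesIn H (commonNbrs H ρ \ lowr H rk z) : Set (Finset Y)) =
      fam H ∅ (commonNbrs H ρ) := by
    ext τ
    rw [const_mem]
    constructor
    · rintro ⟨α, hα, β, hβ, rfl⟩
      obtain ⟨h1, h1'⟩ := mem_cliquesIn.1 (mem_coe.1 hα)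
      obtain ⟨h2, h2'⟩ := mem_cliquesIn.1 (mem_coe.1 hβ)
      refine ⟨union_subset (fun x hx => hlB x (h1 hx)) (h2.trans sdiff_subset), ?_⟩
      intro x hx y hy hxy
      rcases mem_union.1 (mem_coe.1 hx) with hx | hx <;>
        rcases mem_union.1 (mem_coe.1 hy) with hy | hy
      · exact h1' (mem_coe.2 hx) (mem_coe.2 hy) hxy
      · obtain ⟨h3, h4⟩ := mem_sdiff.1 (h2 hy)
        exact hup y h3 h4 x (h1 hx)
      · obtain ⟨h3, h4⟩ := mem_sdiff.1 (h2 hx)
        exact (hup x h3 h4 y (h1 hy)).symm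
      · exact h2' (mem_coe.2 hx) (mem_coe.2 hy) hxy
    · rintro ⟨h1, h2⟩
      refine ⟨τ ∩ lowr H rk z, mem_coe.2 (mem_cliquesIn.2 ⟨inter_subset_right,
        h2.subset (coe_subset.2 inter_subset_left)⟩), τ \ lowr H rk z,
        mem_coe.2 (mem_cliquesIn.2 ⟨sdiff_subset_sdiff h1 (subset_refl _),
        h2.subset (coe_subset.2 sdiff_subset)⟩), ?_⟩
      ext x
      simp only [mem_union, mem_inter, mem_sdiff]
      tauto
  rw [hEq] at hj
  have h0 := hj ∅ (d - ρ.card)
  rw [tw_empty] at h0
  have hstar := ex_star ht ρ (commonNbrs H ρ) hρ (fun x hx y hy => (hA x).1 hx y hy) h0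
  rw [sub_add_cancel, const_fam ρ _ hA] at hstar
  exact hstar

end Low

open Low

variable {Y : Type} [Fintype Y] [LinearOrder Y] {V : Type} [AddCommGroup V] [Module ℚ V]
  [FiniteDimensional ℚ V]
  {H : SimpleGraph Y} {rk : Y → ℕ} {n : ℕ} {s : Y → Module.End ℚ V}

theorem starP (hR : Ranked H rk n) (hs : IsSys H s)
    (hE : ∀ y, Even (rk y) → GoodK (cliquesIn H (lowr H rk y) : Set (Finset Y)) s)
    (hC : ∀ ρ : Finset Y, H.IsClique (ρ : Set Y) → ρ.Nonempty → ∀ j : ℕ, j + ρ.card < 2 * n →
      ExactLink H ρ j) :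
    ∀ (a : ℕ) (ρ : Finset Y), H.IsClique (ρ : Set Y) → ∀ z ∈ ρ, rk z = a →
      (∀ x ∈ ρ, x ≠ z → a < rk x) → ∀ (S : Set Y) (d : ℤ), (Even a ∨ 2 * d + a ≤ 4 * n) →
      ExAt (fam H ρ univ) (vanSys (univ.filter fun x => a ≤ rk x ∧ x ∉ ρ) S s) d := by
  intro a
  induction a using Nat.strong_induction_on with
  | _ a ih =>
  intro ρ hρ z hz hza hlow S d hd
  by_cases hev : Even a
  · subst hza
    exact even_case hR hs hE hρ hz hev hlow S d
  · have hd' : 2 * d + a ≤ 4 * n := hd.resolve_left hev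
    have hodd : Odd a := Nat.not_even_iff_odd.1 hev
    have hρa : ∀ x ∈ ρ, a ≤ rk x := by
      intro x hx
      by_cases h : x = z
      · rw [h, hza]
      · exact (hlow x hx h).le
    have key : ∀ B : Finset Y, (∀ x ∈ B, rk x < a) → (∀ x ∈ B, ∀ y, rk y < rk x → y ∈ B) →
        ExAt (fam H ρ univ) (vanSys (ρᶜ \ B) S s) d := by
      intro B
      refine Finset.induction_on_max_value rk B ?_ ?_
      · intro _ _
        rw [sdiff_empty]
        refine one_ex hρ (vanSys_isSys hs _ S) (fun x hx => ?_) d (fun j hj => ?_)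
        · unfold vanSys
          rw [if_pos (mem_compl.2 hx)]
        · refine hC ρ hρ ⟨z, hz⟩ j ?_
          obtain ⟨q, hq⟩ := hodd
          omega
      · intro u B huB hmax ihB hlt hcl
        have hI := ihB (fun x hx => hlt x (mem_insert_of_mem hx)) (step_closed hmax hcl)
        have hua : rk u < a := hlt u (mem_insert_self u B)
        have hu : u ∉ ρ := fun h => absurd (hρa u h) (not_le.2 hua)
        have h2 : u ∉ ρᶜ \ insert u B := by
          intro h3
          exact (mem_sdiff.1 h3).2 (mem_insert_self u B)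
        rw [← step_sdiff hu huB, ← vanSys_update] at hI
        refine triv_down (van_ok (vanSys_isSys hs _ S) ρ univ) u hI ?_
        rw [van_fam_mem]
        obtain ⟨S', hS'⟩ := vanSys_tw (s := s) (ρᶜ \ insert u B) S h2
        rw [hS']
        by_cases hc : H.IsClique ((insert u ρ : Finset Y) : Set Y)
        · refine sys_congr hR (mem_insert_self u B) ?_ hcl S' ?_
          · intro x hx
            rcases mem_insert.1 hx with h | h
            · rw [h]
            · exact hmax x h
          · refine ih (rk u) hua (insert u ρ) hc u (mem_insert_self u ρ) rfl ?_ S' (d + 1) ?_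
            · intro x hx hxu
              exact hua.trans_le (hρa x ((mem_insert.1 hx).resolve_left hxu))
            · by_cases hr : Even (rk u)
              · exact Or.inl hr
              · right
                obtain ⟨q, hq⟩ := hodd
                obtain ⟨q', hq'⟩ := Nat.not_even_iff_odd.1 hr
                omega
        · rw [van_fam_empty hc]
          exact van_ex_empty
    have hfin := key (univ.filter fun x => rk x < a) (fun x hx => (mem_filter.1 hx).2)
      (fun x hx y hy => mem_filter.2 ⟨mem_univ y, hy.trans (mem_filter.1 hx).2⟩)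
    have hEq : ρᶜ \ (univ.filter fun x => rk x < a) = univ.filter fun x => a ≤ rk x ∧ x ∉ ρ := by
      ext x
      simp only [mem_sdiff, mem_compl, mem_filter, mem_univ, true_and, not_lt]
      exact and_comm
    rw [hEq] at hfin
    exact hfin

theorem compareP (hR : Ranked H rk n) (hs : IsSys H s)
    (hE : ∀ y, Even (rk y) → GoodK (cliquesIn H (lowr H rk y) : Set (Finset Y)) s)
    (hC : ∀ ρ : Finset Y, H.IsClique (ρ : Set Y) → ρ.Nonempty → ∀ j : ℕ, j + ρ.card < 2 * n →
      ExactLink H ρ j) (S : Set Y) :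
    (∀ d : ℤ, d < n → hd (fam H ∅ univ) (fun _ => (1 : Module.End ℚ V)) d =
      hd (fam H ∅ univ) (tw S s) d) ∧
    hd (fam H ∅ univ) (fun _ => (1 : Module.End ℚ V)) n ≤ hd (fam H ∅ univ) (tw S s) n := by
  classical
  have key : ∀ B : Finset Y, (∀ x ∈ B, ∀ y, rk y < rk x → y ∈ B) →
      (∀ d : ℤ, d < n → hd (fam H ∅ univ) (fun _ => (1 : Module.End ℚ V)) d =
        hd (fam H ∅ univ) (vanSys (∅ᶜ \ B) S s) d) ∧
      hd (fam H ∅ univ) (fun _ => (1 : Module.End ℚ V)) n ≤
        hd (fam H ∅ univ) (vanSys (∅ᶜ \ B) S s) n := by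
    intro B
    refine Finset.induction_on_max_value rk B ?_ ?_
    · intro _
      have : vanSys (∅ᶜ \ (∅ : Finset Y)) S s = fun _ => (1 : Module.End ℚ V) := by
        funext x
        unfold vanSys
        rw [if_pos (by simp)]
      rw [this]
      exact ⟨fun _ _ => rfl, le_rfl⟩
    · intro u B huB hmax ihB hcl
      have hI := ihB (step_closed hmax hcl)
      have h2 : u ∉ (∅ : Finset Y)ᶜ \ insert u B := by
        intro h3
        exact (mem_sdiff.1 h3).2 (mem_insert_self u B)
      have hu : ∀ e : ℤ, e ≤ n →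
          ExAt {τ | τ ∈ fam H ∅ univ ∧ u ∈ τ} (tw {u} (vanSys (∅ᶜ \ insert u B) S s)) e := by
        intro e he
        rw [van_fam_mem]
        obtain ⟨S', hS'⟩ := vanSys_tw (s := s) (∅ᶜ \ insert u B) S h2
        rw [hS']
        refine sys_congr hR (mem_insert_self u B) ?_ hcl S' ?_
        · intro x hx
          rcases mem_insert.1 hx with h | h
          · rw [h]
          · exact hmax x h
        · refine starP hR hs hE hC (rk u) (insert u ∅) (by simp) u (mem_insert_self u ∅) rfl ?_
            S' e ?_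
          · intro x hx hxu
            exact absurd ((mem_insert.1 hx).resolve_left hxu) (notMem_empty x)
          · by_cases hr : Even (rk u)
            · exact Or.inl hr
            · right
              obtain ⟨q', hq'⟩ := Nat.not_even_iff_odd.1 hr
              have := hR.le u
              omega
      have hok : Ok (fam H ∅ univ) (vanSys (∅ᶜ \ insert u B) S s) :=
        van_ok (vanSys_isSys hs _ S) ∅ univ
      rw [← step_sdiff (notMem_empty u) huB, ← vanSys_update] at hI
      refine ⟨fun d hd' => ?_, ?_⟩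
      · rw [hI.1 d hd']
        exact hd_eq hok u (hu d (by omega)) (hu (d + 1) (by omega))
      · exact hI.2.trans (hd_le hok u (hu n le_rfl))
  have h := key univ (fun _ _ y _ => mem_univ y)
  have hE' : (∅ : Finset Y)ᶜ \ univ = ∅ := by
    ext x
    simp
  rw [hE', vanSys_empty] at h
  exact h

end Pool.Agent.Helper32.SP
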