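import Pool.Agent.Helper32.SD.Sphere
import Pool.Agent.Helper32.SP.Defs

/-!
# SP-4 Sphere: the order complexes of `EvenSphere`s are good

PROOF. Induction. `T_i` is the set of the elements below one of `F 0, ..., F (i-1)`, `∂_i` the set of
those which are also below one of `F i, ..., F (s-1)`. For `1 ≤ i < s` let `K i` be the complex of the
chains in `T_i` together with the cone with apex `e` over the chains in `∂_i`. `K 1` is a
suspension; `K (i+1)` is obtained from `K i` by splitting twice (`step`), the links are the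
chains in the `EvenSphere` of the definition; `K (s-1)` is the complex of all chains, with `e`
instead of `F (s-1)`.
-/

open Finset Pool.Agent.Helper51.CD

namespace Pool.Agent.Helper32.SP

open Pool.Agent.Helper32.SD

/-- The chains of members of `Q`. -/
def Ch {P : Type} [PartialOrder P] (Q : Set P) : Set (Finset (P ⊕ Bool)) :=
  {τ | (∀ x ∈ τ, ∃ A ∈ Q, x = Sum.inl A) ∧
    ∀ A B : P, Sum.inl A ∈ τ → Sum.inl B ∈ τ → A ≤ B ∨ B ≤ A}

/-- The adjacency of `Sp`. -/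
def spAdj {P : Type} [PartialOrder P] (Θe Θd : Set P) : P ⊕ Bool → P ⊕ Bool → Prop
  | Sum.inl A, Sum.inl B => A < B ∨ B < A
  | Sum.inl A, Sum.inr b => A ∈ cond b Θd Θe
  | Sum.inr b, Sum.inl A => A ∈ cond b Θd Θe
  | Sum.inr a, Sum.inr b => a ≠ b

/-- The graph of comparability, with the spare vertex `e = inr false` joined to `Θe`, the spare
vertex `d = inr true` joined to `Θd`, and `e` joined to `d`. -/
def Sp {P : Type} [PartialOrder P] (Θe Θd : Set P) : SimpleGraph (P ⊕ Bool) where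
  Adj := spAdj Θe Θd
  symm := ⟨by
    rintro (A | a) (B | b) h
    · exact (h : A < B ∨ B < A).symm
    · exact h
    · exact h
    · exact Ne.symm (h : a ≠ b)⟩
  loopless := ⟨by
    rintro (A | a) h
    · exact (h : A < A ∨ A < A).elim (fun h => h.ne rfl) (fun h => h.ne rfl)
    · exact (h : a ≠ a) rfl⟩

section Ch

variable {P : Type} [PartialOrder P]

theorem empty_mem_Ch (Q : Set P) : ∅ ∈ Ch Q :=
  ⟨fun x hx => absurd hx (notMem_empty x), fun A B hA => absurd hA (notMem_empty _)⟩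

theorem Ch_down {Q : Set P} {τ ρ : Finset (P ⊕ Bool)} (hτ : τ ∈ Ch Q)
    (h : ρ ⊆ τ) : ρ ∈ Ch Q :=
  ⟨fun x hx => hτ.1 x (h hx), fun A B hA hB => hτ.2 A B (h hA) (h hB)⟩

theorem Ch_isCx (Θe Θd Q : Set P) : IsCx (Sp Θe Θd) (Ch Q) := by
  constructor
  · intro τ hτ x hx y hy hxy
    rw [mem_coe] at hx hy
    obtain ⟨A, _, rfl⟩ := hτ.1 x hx
    obtain ⟨B, _, rfl⟩ := hτ.1 y hy
    have hne : A ≠ B := fun h => hxy (by rw [h])
    change A < B ∨ B < A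
    rcases hτ.2 A B hx hy with h | h
    · exact Or.inl (lt_of_le_of_ne h hne)
    · exact Or.inr (lt_of_le_of_ne h hne.symm)
  · intro τ hτ ρ hρ
    exact Ch_down hτ hρ

theorem Ch_inr {Q : Set P} {τ : Finset (P ⊕ Bool)} (hτ : τ ∈ Ch Q) (b : Bool) :
    Sum.inr b ∉ τ := by
  intro h
  obtain ⟨A, _, hA⟩ := hτ.1 _ h
  exact Sum.inr_ne_inl hA

theorem Ch_inl {Q : Set P} {τ : Finset (P ⊕ Bool)} (hτ : τ ∈ Ch Q)
    {A : P} (h : Sum.inl A ∈ τ) : A ∈ Q := by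
  obtain ⟨B, hB, hA⟩ := hτ.1 _ h
  rw [Sum.inl_injective hA]
  exact hB

theorem Ch_inter (Q Q' : Set P) : Ch Q ∩ Ch Q' = Ch (Q ∩ Q') := by
  ext τ
  constructor
  · rintro ⟨h1, h2⟩
    refine ⟨fun x hx => ?_, h1.2⟩
    obtain ⟨A, hA, rfl⟩ := h1.1 x hx
    exact ⟨A, ⟨hA, Ch_inl h2 hx⟩, rfl⟩
  · intro h
    refine ⟨⟨fun x hx => ?_, h.2⟩, ⟨fun x hx => ?_, h.2⟩⟩
    · obtain ⟨A, hA, rfl⟩ := h.1 x hx
      exact ⟨A, hA.1, rfl⟩
    · obtain ⟨A, hA, rfl⟩ := h.1 x hx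
      exact ⟨A, hA.2, rfl⟩

theorem Ch_mono {Q Q' : Set P} (h : Q ⊆ Q') : Ch Q ⊆ Ch Q' := by
  intro τ hτ
  refine ⟨fun x hx => ?_, hτ.2⟩
  obtain ⟨A, hA, rfl⟩ := hτ.1 x hx
  exact ⟨A, h hA, rfl⟩

theorem Ch_max {Q : Set P} (τ : Finset (P ⊕ Bool)) : τ ∈ Ch Q →
    τ.Nonempty → ∃ A, Sum.inl A ∈ τ ∧ ∀ B, Sum.inl B ∈ τ → B ≤ A := by
  classical
  induction τ using Finset.induction_on with
  | empty => exact fun _ h => absurd h not_nonempty_empty
  | insert x τ hx ih =>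
    intro hτ _
    obtain ⟨A, _, rfl⟩ := hτ.1 x (mem_insert_self x τ)
    rcases τ.eq_empty_or_nonempty with h | h
    · subst h
      refine ⟨A, mem_insert_self _ _, fun B hB => ?_⟩
      rw [insert_empty_eq, mem_singleton] at hB
      rw [Sum.inl_injective hB]
    · obtain ⟨A', hA', hmax⟩ := ih (Ch_down hτ (subset_insert _ _)) h
      rcases hτ.2 A A' (mem_insert_self _ _) (mem_insert_of_mem hA') with h1 | h1
      · refine ⟨A', mem_insert_of_mem hA', fun B hB => ?_⟩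
        rcases mem_insert.1 hB with h2 | h2
        · rw [Sum.inl_injective h2]
          exact h1
        · exact hmax B h2
      · refine ⟨A, mem_insert_self _ _, fun B hB => ?_⟩
        rcases mem_insert.1 hB with h2 | h2
        · rw [Sum.inl_injective h2]
        · exact (hmax B h2).trans h1

/-- Chains in the union of two lower sets. -/
theorem Ch_union {Z Q Q' : Set P} (hQ : ∀ A ∈ Q, ∀ B ∈ Z, B ≤ A → B ∈ Q)
    (hQ' : ∀ A ∈ Q', ∀ B ∈ Z, B ≤ A → B ∈ Q') (h1 : ∀ A ∈ Q ∪ Q', A ∈ Z) :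
    Ch Q ∪ Ch Q' = Ch (Q ∪ Q') := by
  apply Set.Subset.antisymm
  · rintro τ (h | h)
    · exact Ch_mono Set.subset_union_left h
    · exact Ch_mono Set.subset_union_right h
  · intro τ hτ
    rcases τ.eq_empty_or_nonempty with h | h
    · subst h
      exact Or.inl (empty_mem_Ch Q)
    · obtain ⟨A, hA, hmax⟩ := Ch_max τ hτ h
      rcases Ch_inl hτ hA with h2 | h2
      · left
        refine ⟨fun x hx => ?_, hτ.2⟩
        obtain ⟨B, hB, rfl⟩ := hτ.1 x hx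
        exact ⟨B, hQ A h2 B (h1 B hB) (hmax B hx), rfl⟩
      · right
        refine ⟨fun x hx => ?_, hτ.2⟩
        obtain ⟨B, hB, rfl⟩ := hτ.1 x hx
        exact ⟨B, hQ' A h2 B (h1 B hB) (hmax B hx), rfl⟩

/-- All elements below a given one. -/
theorem Ch_facet [DecidableEq P] {Z : Set P} {B : P} (h : B ∈ Z) :
    Ch {A | A ∈ Z ∧ A ≤ B} = cn (Sum.inl B) (Ch {A | A ∈ Z ∧ A < B}) := by
  ext τ
  constructor
  · intro hτ
    change τ.erase (Sum.inl B) ∈ Ch {A | A ∈ Z ∧ A < B}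
    refine ⟨fun x hx => ?_, fun A A' hA hA' => hτ.2 A A' (mem_of_mem_erase hA)
      (mem_of_mem_erase hA')⟩
    obtain ⟨A, hA, rfl⟩ := hτ.1 x (mem_of_mem_erase hx)
    have hne : A ≠ B := fun h1 => (ne_of_mem_erase hx) (by rw [h1])
    exact ⟨A, ⟨hA.1, lt_of_le_of_ne hA.2 hne⟩, rfl⟩
  · intro hτ
    change τ.erase (Sum.inl B) ∈ Ch {A | A ∈ Z ∧ A < B} at hτ
    have key : ∀ A, Sum.inl A ∈ τ → A = B ∨ (A ∈ Z ∧ A < B) := by
      intro A hA
      by_cases h1 : A = B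
      · exact Or.inl h1
      · right
        have : Sum.inl A ∈ τ.erase (Sum.inl B : P ⊕ Bool) :=
          mem_erase.2 ⟨fun h2 => h1 (Sum.inl_injective h2), hA⟩
        exact Ch_inl hτ this
    constructor
    · intro x hx
      by_cases h1 : x = Sum.inl B
      · exact ⟨B, ⟨h, le_rfl⟩, h1⟩
      · obtain ⟨A, hA, rfl⟩ := hτ.1 x (mem_erase.2 ⟨h1, hx⟩)
        exact ⟨A, ⟨hA.1, hA.2.le⟩, rfl⟩
    · intro A A' hA hA'
      rcases key A hA with h1 | h1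
      · rcases key A' hA' with h2 | h2
        · rw [h1, h2]
          exact Or.inl le_rfl
        · rw [h1]
          exact Or.inr h2.2.le
      · rcases key A' hA' with h2 | h2
        · rw [h2]
          exact Or.inl h1.2.le
        · refine hτ.2 A A' (mem_erase.2 ⟨fun h3 => ?_, hA⟩) (mem_erase.2 ⟨fun h3 => ?_, hA'⟩)
          · exact h1.2.ne (Sum.inl_injective h3)
          · exact h2.2.ne (Sum.inl_injective h3)

theorem Sp_mono {Θe Θd : Set P} {x y : P ⊕ Bool}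
    (h : (Sp Θe ∅).Adj x y) : (Sp Θe Θd).Adj x y := by
  rcases x with A | a <;> rcases y with B | b
  · exact h
  · cases b
    · exact h
    · exact (h : A ∈ (∅ : Set P)).elim
  · cases a
    · exact h
    · exact (h : B ∈ (∅ : Set P)).elim
  · exact h

end Ch

section facts

variable {P : Type} [PartialOrder P] {Q : Set P} {s : ℕ} {F : ℕ → P}

/-- The elements of `Q` below one of `F a, ..., F (b-1)`. -/
def fq (Q : Set P) (F : ℕ → P) (a b : ℕ) : Set P := {A | A ∈ Q ∧ ∃ j, a ≤ j ∧ j < b ∧ A ≤ F j}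

/-- The conditions on the facets. -/
structure Facets (Q : Set P) (s : ℕ) (F : ℕ → P) : Prop where
  two : 2 ≤ s
  mem : ∀ i < s, F i ∈ Q
  anti : ∀ i < s, ∀ j < s, F i ≤ F j → i = j
  cov : ∀ A ∈ Q, ∃ j < s, A ≤ F j
  cl : ∀ A ∈ Q, ∀ i < s, A < F i → ∃ j < s, j ≠ i ∧ A ≤ F j

theorem fq_down {a b : ℕ} : ∀ A ∈ fq Q F a b, ∀ B ∈ Q, B ≤ A → B ∈ fq Q F a b := by
  rintro A ⟨_, j, h1, h2, h3⟩ B hB hBA
  exact ⟨hB, j, h1, h2, hBA.trans h3⟩

theorem fq_succ {i : ℕ} : fq Q F 0 (i + 1) = fq Q F 0 i ∪ {A | A ∈ Q ∧ A ≤ F i} := by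
  ext A
  constructor
  · rintro ⟨h, j, _, h2, h3⟩
    rcases Nat.lt_succ_iff_lt_or_eq.1 h2 with h4 | h4
    · exact Or.inl ⟨h, j, Nat.zero_le _, h4, h3⟩
    · rw [h4] at h3
      exact Or.inr ⟨h, h3⟩
  · rintro (⟨h, j, _, h2, h3⟩ | ⟨h, h2⟩)
    · exact ⟨h, j, Nat.zero_le _, by omega, h3⟩
    · exact ⟨h, i, Nat.zero_le _, Nat.lt_succ_self i, h2⟩

theorem fq_pred {i : ℕ} (hi : i < s) :
    fq Q F i s = {A | A ∈ Q ∧ A ≤ F i} ∪ fq Q F (i + 1) s := by
  ext A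
  constructor
  · rintro ⟨h, j, h1, h2, h3⟩
    rcases Nat.eq_or_lt_of_le h1 with h4 | h4
    · rw [← h4] at h3
      exact Or.inl ⟨h, h3⟩
    · exact Or.inr ⟨h, j, h4, h2, h3⟩
  · rintro (⟨h, h2⟩ | ⟨h, j, h1, h2, h3⟩)
    · exact ⟨h, i, le_rfl, hi, h2⟩
    · exact ⟨h, j, by omega, h2, h3⟩

theorem Facets.not_early (hS : Facets Q s F) {i : ℕ} (hi : i < s) : F i ∉ fq Q F 0 i := by
  rintro ⟨_, j, _, h2, h3⟩
  have := hS.anti i hi j (by omega) h3
  omega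

theorem Facets.not_late (hS : Facets Q s F) {i : ℕ} (hi : i < s) :
    F i ∉ fq Q F (i + 1) s := by
  rintro ⟨_, j, h1, h2, h3⟩
  have := hS.anti i hi j h2 h3
  omega

theorem Facets.not_above (hS : Facets Q s F) {i : ℕ} (hi : i < s) {A : P}
    (hA : A ∈ fq Q F 0 s) : ¬ F i < A := by
  intro h
  obtain ⟨_, j, _, h2, h3⟩ := hA
  have h4 := hS.anti i hi j h2 (h.le.trans h3)
  rw [← h4] at h3
  exact h.not_ge h3

theorem Facets.split (hS : Facets Q s F) {i : ℕ} (hi : i < s) {A : P} (hA : A ∈ Q)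
    (h : A < F i) : A ∈ fq Q F 0 i ∨ A ∈ fq Q F (i + 1) s := by
  obtain ⟨j, h1, h2, h3⟩ := hS.cl A hA i hi h
  rcases Nat.lt_or_gt_of_ne h2 with h4 | h4
  · exact Or.inl ⟨hA, j, Nat.zero_le _, h4, h3⟩
  · exact Or.inr ⟨hA, j, h4, h1, h3⟩

/-- the neighbours of the spare vertex `e` at stage `i` -/
def Tq (Q : Set P) (F : ℕ → P) (s i : ℕ) : Set P := fq Q F 0 i ∩ fq Q F i s

end facts

section main

variable {P : Type} [PartialOrder P] [Fintype P] [DecidableEq P] {Q : Set P} {s : ℕ} {F : ℕ → P}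

theorem stageq_one (hS : Facets Q s F) :
    Gd (Sp (Tq Q F s 1) ∅) (Ch (fq Q F 0 1) ∪ cn (Sum.inr false) (Ch (Tq Q F s 1))) := by
  have h2 := hS.two
  have h0 : 0 < s := by omega
  have e1 : fq Q F 0 1 = {A | A ∈ Q ∧ A ≤ F 0} := by
    rw [fq_succ]
    ext A
    constructor
    · rintro (⟨_, j, _, h, _⟩ | h)
      · exact absurd h (Nat.not_lt_zero j)
      · exact h
    · exact fun h => Or.inr h
  have e2 : Tq Q F s 1 = {A | A ∈ Q ∧ A < F 0} := by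
    ext A
    constructor
    · rintro ⟨h3, h4⟩
      rw [e1] at h3
      refine ⟨h3.1, lt_of_le_of_ne h3.2 fun h => ?_⟩
      rw [h] at h4
      exact hS.not_late h0 h4
    · rintro ⟨h3, h4⟩
      refine ⟨by rw [e1]; exact ⟨h3, h4.le⟩, ?_⟩
      rcases hS.split h0 h3 h4 with h5 | h5
      · obtain ⟨_, j, _, h, _⟩ := h5
        exact absurd h (Nat.not_lt_zero j)
      · exact h5
  rw [e1, Ch_facet (hS.mem 0 h0), ← e2]
  refine Gd.susp (by simp) ?_ (Ch_isCx _ _ _) (empty_mem_Ch _) ?_ ?_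
  · change F 0 ∉ Tq Q F s 1
    rw [e2]
    exact fun h => h.2.ne rfl
  · intro β hβ z hz
    obtain ⟨A, hA, rfl⟩ := hβ.1 z hz
    rw [e2] at hA
    exact Or.inr hA.2
  · intro β hβ z hz
    obtain ⟨A, hA, rfl⟩ := hβ.1 z hz
    exact hA

theorem stageq_succ (hS : Facets Q s F) {i : ℕ} (hi : i + 1 < s)
    (gC : Gd (Sp ∅ ∅) (Ch {A | A ∈ Q ∧ A < F i ∧ (∃ j < i, A ≤ F j) ∧
      ∃ j, i < j ∧ j < s ∧ A ≤ F j}))
    (h : Gd (Sp (Tq Q F s i) ∅) (Ch (fq Q F 0 i) ∪ cn (Sum.inr false) (Ch (Tq Q F s i)))) :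
    Gd (Sp (Tq Q F s (i + 1)) ∅)
      (Ch (fq Q F 0 (i + 1)) ∪ cn (Sum.inr false) (Ch (Tq Q F s (i + 1)))) := by
  have his : i < s := by omega
  obtain ⟨T, hT⟩ : ∃ T : Set P, T = fq Q F 0 i := ⟨_, rfl⟩
  obtain ⟨T', hT'⟩ : ∃ T' : Set P, T' = fq Q F (i + 1) s := ⟨_, rfl⟩
  obtain ⟨E, hE⟩ : ∃ E : Set P, E = {A | A ∈ Q ∧ A < F i ∧ A ∈ T} := ⟨_, rfl⟩
  obtain ⟨D, hD⟩ : ∃ D : Set P, D = {A | A ∈ Q ∧ A < F i ∧ A ∈ T'} := ⟨_, rfl⟩
  obtain ⟨C, hC⟩ : ∃ C : Set P, C = {A | A ∈ Q ∧ A < F i ∧ A ∈ T ∧ A ∈ T'} := ⟨_, rfl⟩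
  have hTQ : ∀ A ∈ T, A ∈ Q := fun A hA => by rw [hT] at hA; exact hA.1
  have hTd : ∀ A ∈ T, ∀ B ∈ Q, B ≤ A → B ∈ T := by rw [hT]; exact fq_down
  have hT'd : ∀ A ∈ T', ∀ B ∈ Q, B ≤ A → B ∈ T' := by rw [hT']; exact fq_down
  have hCeq : {A | A ∈ Q ∧ A < F i ∧ (∃ j < i, A ≤ F j) ∧
      ∃ j, i < j ∧ j < s ∧ A ≤ F j} = C := by
    rw [hC, hT, hT']
    ext A
    constructor
    · rintro ⟨h1, h2, ⟨j, h3, h4⟩, j', h5, h6, h7⟩
      exact ⟨h1, h2, ⟨h1, j, Nat.zero_le _, h3, h4⟩, ⟨h1, j', h5, h6, h7⟩⟩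
    · rintro ⟨h1, h2, ⟨_, j, _, h3, h4⟩, ⟨_, j', h5, h6, h7⟩⟩
      exact ⟨h1, h2, ⟨j, h3, h4⟩, j', h5, h6, h7⟩
  rw [hCeq] at gC
  have hFT : F i ∉ T := by rw [hT]; exact hS.not_early his
  have hFT' : F i ∉ T' := by rw [hT']; exact hS.not_late his
  have e1 : fq Q F 0 (i + 1) = T ∪ {A | A ∈ Q ∧ A ≤ F i} := by rw [fq_succ, hT]
  have e2 : Tq Q F s i = E ∪ (T ∩ T') := by
    unfold Tq
    rw [fq_pred his, ← hT, ← hT', hE]
    ext A
    constructor
    · rintro ⟨h1, h2 | h2⟩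
      · exact Or.inl ⟨h2.1, lt_of_le_of_ne h2.2 fun h3 => hFT (h3 ▸ h1), h1⟩
      · exact Or.inr ⟨h1, h2⟩
    · rintro (⟨h1, h2, h3⟩ | ⟨h1, h2⟩)
      · exact ⟨h3, Or.inl ⟨h1, h2.le⟩⟩
      · exact ⟨h1, Or.inr h2⟩
  have e3 : Tq Q F s (i + 1) = (T ∩ T') ∪ D := by
    unfold Tq
    rw [e1, ← hT', hD]
    ext A
    constructor
    · rintro ⟨h1 | h1, h2⟩
      · exact Or.inl ⟨h1, h2⟩
      · exact Or.inr ⟨h1.1, lt_of_le_of_ne h1.2 fun h3 => hFT' (h3 ▸ h2), h2⟩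
    · rintro (⟨h1, h2⟩ | ⟨h1, h2, h3⟩)
      · exact ⟨Or.inl h1, h2⟩
      · exact ⟨Or.inr ⟨h1, h2.le⟩, h3⟩
  have e4 : E ∪ D = {A | A ∈ Q ∧ A < F i} := by
    rw [hE, hD]
    ext A
    constructor
    · rintro (⟨h1, h2, h3⟩ | ⟨h1, h2, h3⟩)
      · exact ⟨h1, h2⟩
      · exact ⟨h1, h2⟩
    · rintro ⟨h1, h2⟩
      rcases hS.split his h1 h2 with h3 | h3
      · exact Or.inl ⟨h1, h2, by rw [hT]; exact h3⟩
      · exact Or.inr ⟨h1, h2, by rw [hT']; exact h3⟩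
  have e5 : E ∩ (T ∩ T') = C := by
    rw [hE, hC]
    ext A
    constructor
    · rintro ⟨⟨h1, h2, h3⟩, _, h4⟩
      exact ⟨h1, h2, h3, h4⟩
    · rintro ⟨h1, h2, h3, h4⟩
      exact ⟨⟨h1, h2, h3⟩, h3, h4⟩
  have e6 : D ∩ T = C := by
    rw [hD, hC]
    ext A
    constructor
    · rintro ⟨⟨h1, h2, h3⟩, h4⟩
      exact ⟨h1, h2, h4, h3⟩
    · rintro ⟨h1, h2, h3, h4⟩
      exact ⟨⟨h1, h2, h4⟩, h3⟩
  have hET : E ⊆ T := by
    rw [hE]
    rintro A ⟨h1, h2, h3⟩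
    exact h3
  have hElt : ∀ A ∈ E, A < F i := fun A hA => by rw [hE] at hA; exact hA.2.1
  have hDlt : ∀ A ∈ D, A < F i := fun A hA => by rw [hD] at hA; exact hA.2.1
  have hEQ : ∀ A ∈ E, A ∈ Q := fun A hA => hTQ A (hET hA)
  have hDQ : ∀ A ∈ D, A ∈ Q := fun A hA => by rw [hD] at hA; exact hA.1
  have hEd : ∀ A ∈ E, ∀ B ∈ Q, B ≤ A → B ∈ E := by
    rw [hE]
    rintro A ⟨h1, h2, h3⟩ B hB hBA
    exact ⟨hB, lt_of_le_of_lt hBA h2, hTd A h3 B hB hBA⟩
  have hDd : ∀ A ∈ D, ∀ B ∈ Q, B ≤ A → B ∈ D := by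
    rw [hD]
    rintro A ⟨h1, h2, h3⟩ B hB hBA
    exact ⟨hB, lt_of_le_of_lt hBA h2, hT'd A h3 B hB hBA⟩
  have hTTd : ∀ A ∈ T ∩ T', ∀ B ∈ Q, B ≤ A → B ∈ T ∩ T' := fun A hA B hB hBA =>
    ⟨hTd A hA.1 B hB hBA, hT'd A hA.2 B hB hBA⟩
  -- the graph
  obtain ⟨Θd, hΘd⟩ : ∃ Θd : Set P, Θd = {F i} ∪ C := ⟨_, rfl⟩
  obtain ⟨G, hG⟩ : ∃ G : SimpleGraph (P ⊕ Bool), G = Sp (Tq Q F s (i + 1)) Θd := ⟨_, rfl⟩
  have hFD : F i ∉ D := fun h1 => (hDlt _ h1).ne rfl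
  have hna : ¬ G.Adj (Sum.inl (F i)) (Sum.inr false) := by
    rw [hG]
    change F i ∉ Tq Q F s (i + 1)
    rw [e3]
    rintro (h1 | h1)
    · exact hFT h1.1
    · exact hFD h1
  have hstep := step (G := G) (F := Sum.inl (F i)) (e := Sum.inr false) (d := Sum.inr true)
    (by simp) (by simp) (by simp) hna (Q := Ch T) (E' := Ch E) (E'' := Ch (T ∩ T')) (P := Ch D)
    (C := Ch C) (by rw [hG]; exact Ch_isCx _ _ _) (by rw [hG]; exact Ch_isCx _ _ _)
    (by rw [hG]; exact Ch_isCx _ _ _) (by rw [hG]; exact Ch_isCx _ _ _) (Ch_mono hET)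
    (Ch_mono Set.inter_subset_left) (by rw [Ch_inter, e5]) (by rw [Ch_inter, e6])
    (empty_mem_Ch _)
    (fun τ hτ => ⟨fun h1 => hFT (Ch_inl hτ h1), Ch_inr hτ _, Ch_inr hτ _⟩)
    (fun τ hτ => ⟨fun h1 => hFD (Ch_inl hτ h1), Ch_inr hτ _, Ch_inr hτ _⟩)
    (by
      intro τ hτ x hx
      obtain ⟨A, hA, rfl⟩ := hτ.1 x hx
      rw [hG]
      exact Or.inr (hElt A hA))
    (by
      intro τ hτ x hx
      obtain ⟨A, hA, rfl⟩ := hτ.1 x hx
      rw [hG]
      exact Or.inr (hDlt A hA))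
    (by
      intro τ hτ x hx
      obtain ⟨A, hA, rfl⟩ := hτ.1 x hx
      rw [hG]
      change A ∈ Tq Q F s (i + 1)
      rw [e3]
      exact Or.inl hA)
    (by
      intro τ hτ x hx
      obtain ⟨A, hA, rfl⟩ := hτ.1 x hx
      rw [hG]
      change A ∈ Tq Q F s (i + 1)
      rw [e3]
      exact Or.inr hA)
    (by
      intro τ hτ x hx
      obtain ⟨A, hA, rfl⟩ := hτ.1 x hx
      rw [hG]
      change A ∈ Θd
      rw [hΘd]
      exact Or.inr hA)
    (by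
      rw [hG]
      change F i ∈ Θd
      rw [hΘd]
      exact Or.inl rfl)
    (by
      rw [hG]
      change true ≠ false
      simp)
    (by
      refine gC.restrict (by rw [hG]; exact Ch_isCx _ _ _) fun x y hx hy hxy => ?_
      obtain ⟨A, _, rfl⟩ := hx.1 x (mem_singleton_self _)
      obtain ⟨B, _, rfl⟩ := hy.1 y (mem_singleton_self _)
      rw [hG] at hxy
      exact hxy)
    (by
      -- the contracted complex
      have hu : Ch E ∪ Ch (T ∩ T') = Ch (Tq Q F s i) := by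
        rw [Ch_union hEd hTTd (fun A hA => hA.elim (hEQ A) (fun h1 => hTQ A h1.1)), ← e2]
      rw [hu, hT]
      have hvert : ∀ x, {x} ∈ Ch (fq Q F 0 i) ∪ cn (Sum.inr true) (Ch (Tq Q F s i)) →
          x ≠ Sum.inr true → ∃ A ∈ T, x = Sum.inl A := by
        rintro x (hx | hx) hne
        · obtain ⟨A, hA, rfl⟩ := hx.1 x (mem_singleton_self _)
          rw [← hT] at hA
          exact ⟨A, hA, rfl⟩
        · change ({x} : Finset (P ⊕ Bool)).erase (Sum.inr true) ∈ Ch (Tq Q F s i) at hx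
          rw [erase_eq_of_notMem (by simpa using Ne.symm hne)] at hx
          obtain ⟨A, hA, rfl⟩ := hx.1 x (mem_singleton_self _)
          refine ⟨A, ?_, rfl⟩
          rw [hT]
          exact hA.1
      have hdadj : ∀ A ∈ T, (contr (contr G (Sum.inr true) (Sum.inl (F i))) (Sum.inr true)
          (Sum.inr false)).Adj (Sum.inr true) (Sum.inl A) → A ∈ Tq Q F s i := by
        intro A hA hadj
        have hσA := hTQ A hA
        have hnot : ¬ F i < A := by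
          refine hS.not_above his ?_
          rw [hT] at hA
          obtain ⟨h1, j, h2, h3, h4⟩ := hA
          exact ⟨h1, j, h2, by omega, h4⟩
        have hsub : A < F i → A ∈ Tq Q F s i := by
          intro h1
          rw [e2, hE]
          exact Or.inl ⟨hσA, h1, hA⟩
        have hΘ : A ∈ Tq Q F s (i + 1) → A ∈ Tq Q F s i := by
          intro h1
          rw [e3] at h1
          rcases h1 with h1 | h1
          · rw [e2]
            exact Or.inr h1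
          · have : A ∈ C := by
              rw [← e6]
              exact ⟨h1, hA⟩
            rw [← e5] at this
            rw [e2]
            exact Or.inl this.1
        have h1 : (Sp (Tq Q F s (i + 1)) Θd).Adj (Sum.inr true) (Sum.inl A) →
            A ∈ Tq Q F s i := by
          intro h2
          change A ∈ Θd at h2
          rw [hΘd] at h2
          rcases h2 with h2 | h2
          · exact absurd (h2 ▸ hA) hFT
          · rw [← e5] at h2
            rw [e2]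
            exact Or.inl h2.1
        have h2 : (Sp (Tq Q F s (i + 1)) Θd).Adj (Sum.inl (F i)) (Sum.inl A) →
            A ∈ Tq Q F s i := by
          intro h3
          rcases (h3 : F i < A ∨ A < F i) with h4 | h4
          · exact absurd h4 hnot
          · exact hsub h4
        have h3 : (Sp (Tq Q F s (i + 1)) Θd).Adj (Sum.inr false) (Sum.inl A) →
            A ∈ Tq Q F s i := fun h4 => hΘ h4
        have h4 : (contr G (Sum.inr true) (Sum.inl (F i))).Adj (Sum.inr true) (Sum.inl A) →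
            A ∈ Tq Q F s i := by
          rintro ⟨_, h5 | ⟨_, h5⟩ | ⟨h5, _⟩⟩
          · rw [hG] at h5
            exact h1 h5
          · rw [hG] at h5
            exact h2 h5
          · exact absurd h5 (by simp)
        have h5 : (contr G (Sum.inr true) (Sum.inl (F i))).Adj (Sum.inr false) (Sum.inl A) →
            A ∈ Tq Q F s i := by
          rintro ⟨_, h6 | ⟨h6, _⟩ | ⟨h6, _⟩⟩
          · rw [hG] at h6
            exact h3 h6
          · exact absurd h6 (by simp)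
          · exact absurd h6 (by simp)
        obtain ⟨_, h6 | ⟨_, h6⟩ | ⟨h6, _⟩⟩ := hadj
        · exact h4 h6
        · exact h5 h6
        · exact absurd h6 (by simp)
      have hTadj : ∀ A B : P, (contr (contr G (Sum.inr true) (Sum.inl (F i)))
          (Sum.inr true) (Sum.inr false)).Adj (Sum.inl A) (Sum.inl B) → A < B ∨ B < A := by
        rintro A B ⟨_, ⟨_, h6 | ⟨h6, _⟩ | ⟨h6, _⟩⟩ | ⟨h6, _⟩ | ⟨h6, _⟩⟩
        · rw [hG] at h6
          exact h6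
        · exact absurd h6 (by simp)
        · exact absurd h6 (by simp)
        · exact absurd h6 (by simp)
        · exact absurd h6 (by simp)
      refine Gd.rename (u' := Sum.inr false) (fun τ hτ => ⟨Ch_inr hτ _, Ch_inr hτ _⟩)
        (fun τ hτ => ⟨Ch_inr hτ _, Ch_inr hτ _⟩) ?_ ?_ ?_ h
      · refine isCx_cone (isCx_contr (isCx_contr (by rw [hG]; exact Ch_isCx _ _ _) _ _) _ _)
          (isCx_contr (isCx_contr (by rw [hG]; exact Ch_isCx _ _ _) _ _) _ _) ?_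
        intro τ hτ x hx
        obtain ⟨A, hA, rfl⟩ := hτ.1 x hx
        rw [e2] at hA
        rcases hA with hA | hA
        · refine ⟨by simp, Or.inl ⟨by simp, Or.inr (Or.inl ⟨rfl, ?_⟩)⟩⟩
          rw [hG]
          exact Or.inr (hElt A hA)
        · refine ⟨by simp, Or.inr (Or.inl ⟨rfl, ⟨by simp, Or.inl ?_⟩⟩)⟩
          rw [hG]
          change A ∈ Tq Q F s (i + 1)
          rw [e3]
          exact Or.inl hA
      · intro x y hx hy hx1 hy1 hxy
        obtain ⟨A, _, rfl⟩ := hvert x hx1 hx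
        obtain ⟨B, _, rfl⟩ := hvert y hy1 hy
        exact hTadj A B hxy
      · intro x hx hx1 hxy
        obtain ⟨A, hA, rfl⟩ := hvert x hx1 hx
        exact hdadj A hA hxy)
  have hu1 : Ch E ∪ Ch D = Ch {A | A ∈ Q ∧ A < F i} := by
    rw [Ch_union hEd hDd (fun A hA => hA.elim (hEQ A) (hDQ A)), e4]
  have hu2 : Ch (T ∩ T') ∪ Ch D = Ch (Tq Q F s (i + 1)) := by
    rw [Ch_union hTTd hDd (fun A hA => hA.elim (fun h1 => hTQ A h1.1) (hDQ A)), e3]
  have hu3 : Ch T ∪ Ch {A | A ∈ Q ∧ A ≤ F i} = Ch (fq Q F 0 (i + 1)) := by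
    have h1 : ∀ A ∈ {A : P | A ∈ Q ∧ A ≤ F i}, ∀ B ∈ Q, B ≤ A →
        B ∈ {A : P | A ∈ Q ∧ A ≤ F i} := fun A hA B hB hBA => ⟨hB, hBA.trans hA.2⟩
    have h2 : ∀ A ∈ T ∪ {A : P | A ∈ Q ∧ A ≤ F i}, A ∈ Q := fun A hA =>
      hA.elim (hTQ A) (fun h1 => h1.1)
    rw [Ch_union hTd h1 h2, e1]
  rw [hu1, hu2, ← Ch_facet (hS.mem i his), hu3] at hstep
  have hcx : ∀ Θ : Set P, IsCx (Sp (Tq Q F s (i + 1)) Θ) (Ch (fq Q F 0 (i + 1)) ∪
      cn (Sum.inr false) (Ch (Tq Q F s (i + 1)))) := by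
    intro Θ
    refine isCx_cone (Ch_isCx _ _ _) (Ch_isCx _ _ _) fun τ hτ x hx => ?_
    obtain ⟨A, hA, rfl⟩ := hτ.1 x hx
    exact hA
  refine hstep.restrict (hcx ∅) fun x y hx hy hxy => ?_
  rw [hG]
  exact Sp_mono hxy

theorem stagesq (hS : Facets Q s F)
    (gC : ∀ i, 0 < i → i + 1 < s → Gd (Sp ∅ ∅) (Ch {A | A ∈ Q ∧ A < F i ∧
      (∃ j < i, A ≤ F j) ∧ ∃ j, i < j ∧ j < s ∧ A ≤ F j})) :
    ∀ i, i + 1 < s → Gd (Sp (Tq Q F s (i + 1)) ∅)
      (Ch (fq Q F 0 (i + 1)) ∪ cn (Sum.inr false) (Ch (Tq Q F s (i + 1)))) := by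
  intro i
  induction i with
  | zero =>
    intro _
    exact stageq_one hS
  | succ i hi =>
    intro h
    exact stageq_succ hS h (gC (i + 1) (Nat.succ_pos i) h) (hi (by omega))

theorem last_stageq (hS : Facets Q s F) {i : ℕ} (hi : i + 1 = s)
    (h : Gd (Sp (Tq Q F s i) ∅) (Ch (fq Q F 0 i) ∪ cn (Sum.inr false) (Ch (Tq Q F s i)))) :
    Gd (Sp ∅ ∅) (Ch Q) := by
  have his : i < s := by omega
  have hQs : fq Q F 0 s = Q := by
    ext A
    constructor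
    · exact fun h1 => h1.1
    · intro h1
      obtain ⟨j, h2, h3⟩ := hS.cov A h1
      exact ⟨h1, j, Nat.zero_le _, h2, h3⟩
  have e0 : fq Q F 0 s = fq Q F 0 i ∪ {A | A ∈ Q ∧ A ≤ F i} := by
    rw [← hi, fq_succ]
  have e1 : Tq Q F s i = {A | A ∈ Q ∧ A < F i} := by
    unfold Tq
    ext A
    constructor
    · rintro ⟨h1, h2⟩
      rw [fq_pred his] at h2
      rcases h2 with h2 | ⟨_, j, h3, h4, _⟩
      · refine ⟨h2.1, lt_of_le_of_ne h2.2 fun h3 => ?_⟩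
        rw [h3] at h1
        exact hS.not_early his h1
      · omega
    · rintro ⟨h1, h2⟩
      refine ⟨?_, ?_⟩
      · rcases hS.split his h1 h2 with h3 | ⟨_, j, h3, h4, _⟩
        · exact h3
        · omega
      · rw [fq_pred his]
        exact Or.inl ⟨h1, h2.le⟩
  have hd : ∀ A ∈ {A : P | A ∈ Q ∧ A ≤ F i}, ∀ B ∈ Q, B ≤ A →
      B ∈ {A : P | A ∈ Q ∧ A ≤ F i} := fun A hA B hB hBA => ⟨hB, hBA.trans hA.2⟩
  have hσ' : ∀ A ∈ fq Q F 0 i ∪ {A : P | A ∈ Q ∧ A ≤ F i}, A ∈ Q := fun A hA =>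
    hA.elim (fun h1 => h1.1) (fun h1 => h1.1)
  have e2 : Ch Q = Ch (fq Q F 0 i) ∪ cn (Sum.inl (F i)) (Ch (Tq Q F s i)) := by
    rw [← hQs, e0, ← Ch_union fq_down hd hσ', Ch_facet (hS.mem i his), ← e1, ← e0, hQs]
  have hn1 : F i ∉ Tq Q F s i := by
    rw [e1]
    exact fun h1 => h1.2.ne rfl
  have hvert : ∀ x, {x} ∈ Ch (fq Q F 0 i) ∪ cn (Sum.inl (F i)) (Ch (Tq Q F s i)) →
      x ≠ Sum.inl (F i) → ∃ A ∈ fq Q F 0 i, x = Sum.inl A := by
    rintro x (hx | hx) hne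
    · obtain ⟨A, hA, rfl⟩ := hx.1 x (mem_singleton_self _)
      exact ⟨A, hA, rfl⟩
    · change ({x} : Finset (P ⊕ Bool)).erase (Sum.inl (F i)) ∈ Ch (Tq Q F s i) at hx
      rw [erase_eq_of_notMem (by simpa using Ne.symm hne)] at hx
      obtain ⟨A, hA, rfl⟩ := hx.1 x (mem_singleton_self _)
      exact ⟨A, hA.1, rfl⟩
  rw [e2]
  refine Gd.rename (u' := Sum.inr false)
    (fun τ hτ => ⟨fun h1 => hS.not_early his (Ch_inl hτ h1), Ch_inr hτ _⟩)
    (fun τ hτ => ⟨fun h1 => hn1 (Ch_inl hτ h1), Ch_inr hτ _⟩) ?_ ?_ ?_ h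
  · refine isCx_cone (Ch_isCx _ _ _) (Ch_isCx _ _ _) fun τ hτ x hx => ?_
    obtain ⟨A, hA, rfl⟩ := hτ.1 x hx
    rw [e1] at hA
    exact Or.inr hA.2
  · intro x y hx hy hx1 hy1 hxy
    obtain ⟨A, _, rfl⟩ := hvert x hx1 hx
    obtain ⟨B, _, rfl⟩ := hvert y hy1 hy
    exact hxy
  · intro x hx hx1 hxy
    obtain ⟨A, hA, rfl⟩ := hvert x hx1 hx
    change A ∈ Tq Q F s i
    rw [e1]
    refine ⟨hA.1, ?_⟩
    rcases (hxy : F i < A ∨ A < F i) with h4 | h4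
    · refine absurd h4 (hS.not_above his ?_)
      obtain ⟨h5, j, h6, h7, h8⟩ := hA
      exact ⟨h5, j, h6, by omega, h8⟩
    · exact h4

omit [DecidableEq P] in
theorem evenSphere_good (h : EvenSphere Q) : Gd (Sp ∅ ∅) (Ch Q) := by
  classical
  induction h with
  | mk Q s F h2 hF hanti hcov hcl _ ih =>
    have hS : Facets Q s F := ⟨h2, hF, hanti, hcov, hcl⟩
    exact last_stageq hS (i := s - 2 + 1) (by omega) (stagesq hS ih (s - 2) (by omega))

end main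

/-- The order complex of an `EvenSphere`, on other vertices. -/
theorem evenSphere_nerve {P Y : Type} [PartialOrder P] [Fintype P] [Fintype Y] {H : SimpleGraph Y}
    (φ : Y ↪ P) (hH : ∀ x y, H.Adj x y ↔ φ x < φ y ∨ φ y < φ x) {Q : Set P} (hQ : EvenSphere Q)
    (hsurj : ∀ A ∈ Q, ∃ y, φ y = A) {B : Finset Y} (hB : ∀ y, y ∈ B ↔ φ y ∈ Q) :
    Gd H (Cube.cliquesIn H B : Set (Finset Y)) := by
  classical
  have hcx : IsCx H (Cube.cliquesIn H B : Set (Finset Y)) := by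
    refine ⟨fun τ hτ => (Cube.mem_cliquesIn.1 hτ).2, fun τ hτ π hπ => ?_⟩
    obtain ⟨h1, h2⟩ := Cube.mem_cliquesIn.1 hτ
    exact Cube.mem_cliquesIn.2 ⟨hπ.trans h1, h2.subset (by exact_mod_cast hπ)⟩
  let f : Y ↪ P ⊕ Bool := φ.trans ⟨Sum.inl, Sum.inl_injective⟩
  refine Gd.relabel (G' := Sp ∅ ∅) f hcx (fun x y _ _ hxy => (hH x y).1 hxy) ?_
  have him : (fun τ : Finset Y => τ.map f) '' (Cube.cliquesIn H B : Set (Finset Y)) = Ch Q := by
    ext ρ
    constructor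
    · rintro ⟨τ, hτ, rfl⟩
      obtain ⟨h1, h2⟩ := Cube.mem_cliquesIn.1 hτ
      refine ⟨fun x hx => ?_, fun A A' hA hA' => ?_⟩
      · obtain ⟨y, hy, rfl⟩ := mem_map.1 hx
        exact ⟨φ y, (hB y).1 (h1 hy), rfl⟩
      · obtain ⟨y, hy, e1⟩ := mem_map.1 hA
        obtain ⟨y', hy', e2⟩ := mem_map.1 hA'
        have e3 : φ y = A := Sum.inl_injective e1
        have e4 : φ y' = A' := Sum.inl_injective e2
        rw [← e3, ← e4]
        by_cases h3 : y = y'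
        · rw [h3]
          exact Or.inl le_rfl
        · rcases (hH y y').1 (h2 (mem_coe.2 hy) (mem_coe.2 hy') h3) with h4 | h4
          · exact Or.inl h4.le
          · exact Or.inr h4.le
    · intro hρ
      refine ⟨univ.filter (fun y => f y ∈ ρ), ?_, ?_⟩
      · refine Cube.mem_cliquesIn.2 ⟨fun y hy => ?_, fun y hy y' hy' hne => ?_⟩
        · rw [mem_filter] at hy
          exact (hB y).2 (Ch_inl hρ hy.2)
        · rw [mem_coe, mem_filter] at hy hy'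
          rw [hH]
          have hne' : φ y ≠ φ y' := fun h1 => hne (φ.injective h1)
          rcases hρ.2 _ _ hy.2 hy'.2 with h1 | h1
          · exact Or.inl (lt_of_le_of_ne h1 hne')
          · exact Or.inr (lt_of_le_of_ne h1 hne'.symm)
      · ext x
        rw [mem_map]
        constructor
        · rintro ⟨y, hy, rfl⟩
          exact (mem_filter.1 hy).2
        · intro hx
          obtain ⟨A, hA, rfl⟩ := hρ.1 x hx
          obtain ⟨y, rfl⟩ := hsurj A hA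
          exact ⟨y, mem_filter.2 ⟨mem_univ _, hx⟩, rfl⟩
  rw [him]
  exact evenSphere_good hQ

end Pool.Agent.Helper32.SP
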