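import Pool.Agent.Helper32.SP.Defs
import Pool.Agent.Helper51.CD.VanishRel

/-!
# SP-1 Up: exactness above the middle

PROOF of `upperP`. Induction on the number of elements of `A` (for all `k`, `S`, `d`). `A = ∅`: the
only member of `fam H ∅ ∅` is `∅`, and `d > 0`, so all cochains of degree `d` vanish
(`van_ex_zero`). Otherwise let `y ∈ A` with `rk y` maximal, `A' = A.erase y` (again closed under
smaller elements). `ex_glue` with `F = fam H ∅ A`, `F1 = fam H ∅ A'`; the rest is
`fam H {y} (lowr H rk y)`: the neighbours of `y` in `A` have smaller rank (`ne`, `y` maximal), and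
`lowr H rk y ⊆ A`. By `ex_star` it is enough that `fam H ∅ (lowr H rk y)` is exact in degree
`d - 1` (for `tw S s`). If `rk y` is even: `hE` (`cliquesIn H B` as a set is `fam H ∅ B`). If
`rk y` is odd: `rk y ≤ 2 k - 1`, so `k ≥ 1`, the elements of `lowr H rk y` have rank `≤ 2 (k - 1)`, it
is closed under smaller elements (`trans`), does not contain `y`; induction hypothesis with `k - 1`
and `d - 1`.
-/

open Finset Pool.Agent.Helper51.CD Pool.Agent.Helper51.CD.Cube

namespace Pool.Agent.Helper32.SP

theorem upperP {Y : Type} [Fintype Y] [LinearOrder Y] {V : Type} [AddCommGroup V] [Module ℚ V]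
    {H : SimpleGraph Y} {rk : Y → ℕ} {n : ℕ} (hR : Ranked H rk n) {s : Y → Module.End ℚ V}
    (hs : IsSys H s)
    (hE : ∀ y, Even (rk y) → GoodK (cliquesIn H (lowr H rk y) : Set (Finset Y)) s) :
    ∀ (k : ℕ) (A : Finset Y), (∀ x ∈ A, rk x ≤ 2 * k) →
      (∀ x ∈ A, ∀ y, H.Adj y x → rk y < rk x → y ∈ A) → ∀ (S : Set Y) (d : ℤ), (k : ℤ) < d →
      ExAt (fam H ∅ A) (tw S s) d := by
  have main : ∀ (m : ℕ) (k : ℕ) (A : Finset Y), A.card = m → (∀ x ∈ A, rk x ≤ 2 * k) →
      (∀ x ∈ A, ∀ y, H.Adj y x → rk y < rk x → y ∈ A) → ∀ (S : Set Y) (d : ℤ), (k : ℤ) < d →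
      ExAt (fam H ∅ A) (tw S s) d := by
    intro m
    induction m using Nat.strong_induction_on with
    | _ m ih =>
    intro k A hm hA hcl S d hd
    rcases A.eq_empty_or_nonempty with h0 | h0
    · subst h0
      apply van_ex_zero
      intro c hc
      rw [mem_CC] at hc
      funext τ
      by_cases h1 : τ ∈ fam H ∅ ∅
      · have h2 : τ = ∅ := by
          rw [eq_empty_iff_forall_notMem]
          intro x hx
          rcases h1.2.1 x hx with h3 | h3
          · exact notMem_empty x h3
          · exact notMem_empty x h3
        subst h2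
        refine hc.2.1 ∅ ?_
        rw [card_empty]
        omega
      · exact hc.1 τ h1
    · obtain ⟨y, hy, hmax⟩ := exists_max_image A rk h0
      have hlow : lowr H rk y ⊆ A := fun x hx => by
        rw [mem_lowr] at hx
        exact hcl y hy x hx.1 hx.2
      have hynot : y ∉ lowr H rk y := fun h => by
        rw [mem_lowr] at h
        exact lt_irrefl _ h.2
      have hcard : (lowr H rk y).card < A.card := by
        refine card_lt_card ⟨hlow, fun h => hynot (h hy)⟩
      have hcl' : ∀ x ∈ A.erase y, ∀ z, H.Adj z x → rk z < rk x → z ∈ A.erase y := by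
        intro x hx z hz hlt
        refine mem_erase.2 ⟨fun h => ?_, hcl x (mem_of_mem_erase hx) z hz hlt⟩
        subst h
        have := hmax x (mem_of_mem_erase hx)
        omega
      have hdiff : fam H ∅ A \ fam H ∅ (A.erase y) = fam H {y} (lowr H rk y) := by
        ext τ
        constructor
        · rintro ⟨⟨_, h2, h3⟩, h4⟩
          have h5 : y ∈ τ := by
            by_contra h6
            refine h4 ⟨empty_subset _, fun x hx => Or.inr ?_, h3⟩
            rcases h2 x hx with h7 | h7
            · exact absurd h7 (notMem_empty x)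
            · exact mem_erase.2 ⟨fun h8 => h6 (h8 ▸ hx), h7⟩
          refine ⟨singleton_subset_iff.2 h5, fun x hx => ?_, h3⟩
          by_cases h6 : x = y
          · exact Or.inl (mem_singleton.2 h6)
          · right
            have h7 : H.Adj x y := h3 (mem_coe.2 hx) (mem_coe.2 h5) h6
            rw [mem_lowr]
            refine ⟨h7, lt_of_le_of_ne ?_ (hR.ne x y h7)⟩
            rcases h2 x hx with h8 | h8
            · exact absurd h8 (notMem_empty x)
            · exact hmax x h8
        · rintro ⟨h1, h2, h3⟩
          refine ⟨⟨empty_subset _, fun x hx => Or.inr ?_, h3⟩, fun h4 => ?_⟩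
          · rcases h2 x hx with h5 | h5
            · rw [mem_singleton.1 h5]
              exact hy
            · exact hlow h5
          · rcases h4.2.1 y (singleton_subset_iff.1 h1) with h5 | h5
            · exact notMem_empty y h5
            · exact notMem_erase y A h5
      have hlink : ExAt (fam H ∅ (lowr H rk y)) (tw S s) (d - 1) := by
        rcases Nat.even_or_odd (rk y) with hev | hod
        · have h1 := hE y hev S (d - 1)
          have h2 : (cliquesIn H (lowr H rk y) : Set (Finset Y)) = fam H ∅ (lowr H rk y) := by
            ext τ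
            rw [mem_coe, mem_cliquesIn]
            constructor
            · rintro ⟨h3, h4⟩
              exact ⟨empty_subset _, fun x hx => Or.inr (h3 hx), h4⟩
            · rintro ⟨_, h3, h4⟩
              refine ⟨fun x hx => ?_, h4⟩
              rcases h3 x hx with h5 | h5
              · exact absurd h5 (notMem_empty x)
              · exact h5
          rw [h2] at h1
          exact h1
        · have h1 := hA y hy
          have h2 := hR.one y
          obtain ⟨q, hq⟩ := hod
          refine ih _ (hm ▸ hcard) (k - 1) (lowr H rk y) rfl (fun x hx => ?_)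
            (fun x hx z hz hlt => ?_) S (d - 1) ?_
          · rw [mem_lowr] at hx
            omega
          · rw [mem_lowr] at hx ⊢
            exact ⟨hR.trans z x y hz hx.1 hlt hx.2, hlt.trans hx.2⟩
          · omega
      have hstar := ex_star (van_isSys_tw hs S) {y} (lowr H rk y) (by simp)
        (fun x hx z hz => by
          rw [mem_singleton.1 hz]
          exact ((mem_lowr.1 hx).1).symm) hlink
      rw [card_singleton, Nat.cast_one, sub_add_cancel] at hstar
      refine ex_glue (van_ok (van_isSys_tw hs S) ∅ A) (F1 := fam H ∅ (A.erase y)) ?_ ?_ ?_ ?_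
      · rintro τ ⟨h1, h2, h3⟩
        refine ⟨h1, fun x hx => ?_, h3⟩
        rcases h2 x hx with h4 | h4
        · exact Or.inl h4
        · exact Or.inr (mem_of_mem_erase h4)
      · rintro τ ⟨h1, h2, h3⟩ ρ ⟨h4, h5, h6⟩ h7
        exact ⟨h4, fun x hx => h2 x (h7 hx), h6⟩
      · refine ih (A.erase y).card ?_ k (A.erase y) rfl (fun x hx => hA x (mem_of_mem_erase hx))
          hcl' S d hd
        rw [card_erase_of_mem hy, ← hm]
        have := card_pos.2 h0
        omega
      · rw [hdiff]
        exact hstar
  intro k A
  exact main A.card k A rfl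

end Pool.Agent.Helper32.SP
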