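import Pool.Agent.Helper32.SP.Defs
import Pool.Agent.Helper32.SD.Sphere

/-!
# SP-3 Simp: shellable simplicial spheres of even dimension are `EvenSphere`s

PROOF of `evenSphere_shelled`. Strong induction on `N` as in `sphere` (end of SD/Sphere.lean):
`EvenSphere.mk` with the facets `F 0, ..., F (s-1)`. `F i ≤ F j` implies `F i = F j` (same number of
elements), and then `i = j` (`not_mem_fc`, `not_mem_fc'`). Closedness: `σ ⊂ A ⊂ F i`: if `A` does not contain
`R i`: an earlier facet (`early`), otherwise it does not contain the rest (`late`). The set for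
`0 < i < s - 1` is `{A | σ ⊂ A ∧ A ⊆ F i ∧ ¬ R i ⊆ A ∧ ¬ (F i \ σ) \ R i ⊆ A}`, which is `fc` of a shelled
sphere by `shelled_join σ (R i) ((F i \ σ) \ R i)`, with `N - 2` instead of `N`
(`R_nonempty`, `S_nonempty`, `|R i| + |(F i \ σ) \ R i| = N`: copy from `stage_succ`).
`evenSphere_simplex`: `shelled_simplex σ B` (SD/Cross.lean).
-/

open Finset

namespace Pool.Agent.Helper32.SP

open Pool.Agent.Helper32.SD

variable {U : Type} [Fintype U] [DecidableEq U]

theorem evenSphere_shelled : ∀ N : ℕ, Odd N → ∀ (σ : Finset U) (s : ℕ) (F R : ℕ → Finset U),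
    Shelled σ N s F R → EvenSphere (fc σ F 0 s) := by
  intro N
  induction N using Nat.strong_induction_on with
  | _ N IH =>
  intro hodd σ s F R hS
  have hN : 0 < N := hodd.pos
  have h2 := hS.two_le hN
  refine EvenSphere.mk (fc σ F 0 s) s F h2 ?_ ?_ ?_ ?_ ?_
  · intro i hi
    exact ⟨hS.ssub hN hi, i, Nat.zero_le _, hi, Finset.Subset.rfl⟩
  · intro i hi j hj hij
    have hsub : F i ⊆ F j := hij
    have heq : F i = F j := eq_of_subset_of_card_le hsub (by rw [hS.card i hi, hS.card j hj])
    rcases Nat.lt_trichotomy i j with h | h | h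
    · exact absurd ⟨hS.ssub hN hj, i, Nat.zero_le _, h, heq.symm.subset⟩ (not_mem_fc hS hj)
    · exact h
    · exact absurd ⟨hS.ssub hN hi, j, Nat.zero_le _, h, heq.subset⟩ (not_mem_fc hS hi)
  · rintro A ⟨_, j, _, hj, hAj⟩
    exact ⟨j, hj, hAj⟩
  · intro A hA i hi hAi
    have hAs : A ⊂ F i := hAi
    by_cases h : R i ⊆ A
    · have h3 : ¬ (F i \ σ) \ R i ⊆ A := by
        intro h4
        apply hAs.2
        intro x hx
        by_cases h5 : x ∈ σ
        · exact hA.1.subset h5
        · by_cases h6 : x ∈ R i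
          · exact h h6
          · exact h4 (mem_sdiff.2 ⟨mem_sdiff.2 ⟨hx, h5⟩, h6⟩)
      obtain ⟨j, hj, hjs, hj2⟩ := (hS.late i hi A hA.1.subset hAs.subset).2 h3
      exact ⟨j, hjs, hj.ne', hj2⟩
    · obtain ⟨j, hj, hj2⟩ := (hS.early i hi A hA.1.subset hAs.subset).2 h
      exact ⟨j, by omega, hj.ne, hj2⟩
  · intro i h0 hi
    have his : i < s := by omega
    have hσ := hS.ssub hN his
    obtain ⟨S, hSdef⟩ : ∃ S, S = (F i \ σ) \ R i := ⟨_, rfl⟩
    have hSne : S.Nonempty := hSdef ▸ hS.S_nonempty hi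
    have hRne := hS.R_nonempty his h0
    have hRsub := hS.sub i his
    have hFi : F i = σ ∪ R i ∪ S := by
      rw [hSdef]
      ext x
      simp only [mem_union, mem_sdiff]
      constructor
      · intro hx
        by_cases h1 : x ∈ σ
        · exact Or.inl (Or.inl h1)
        · by_cases h2 : x ∈ R i
          · exact Or.inl (Or.inr h2)
          · exact Or.inr ⟨⟨hx, h1⟩, h2⟩
      · rintro ((h1 | h1) | h1)
        · exact hσ.subset h1
        · exact (mem_sdiff.1 (hRsub h1)).1
        · exact h1.1.1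
    have hdR : Disjoint σ (R i) := by
      rw [disjoint_left]
      exact fun x hx hx' => (mem_sdiff.1 (hRsub hx')).2 hx
    have hdS : Disjoint σ S := by
      rw [disjoint_left, hSdef]
      exact fun x hx hx' => (mem_sdiff.1 (mem_sdiff.1 hx').1).2 hx
    have hdRS : Disjoint (R i) S := by
      rw [disjoint_left, hSdef]
      exact fun x hx hx' => (mem_sdiff.1 hx').2 hx
    have hcard : (R i).card + S.card = N := by
      have h1 := hS.card i his
      rw [hFi, card_union_of_disjoint (disjoint_union_left.2 ⟨hdS, hdRS⟩),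
        card_union_of_disjoint hdR] at h1
      omega
    obtain ⟨s', F', R'', h5, h6⟩ := shelled_join σ (R i) S hdR hdS hdRS hRne hSne
    rw [hcard] at h5
    have hR1 := hRne.card_pos
    have hS1 := hSne.card_pos
    have h7 := IH (N - 2) (by omega) (by
      obtain ⟨q, hq⟩ := hodd
      exact ⟨q - 1, by omega⟩) σ s' F' R'' h5
    have h8 : {A | A ∈ fc σ F 0 s ∧ A < F i ∧ (∃ j < i, A ≤ F j) ∧
        ∃ j, i < j ∧ j < s ∧ A ≤ F j} = fc σ F' 0 s' := by
      ext A
      rw [h6 A, ← hFi]
      constructor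
      · rintro ⟨hA, hAi, hj, hj'⟩
        have hAs : A ⊂ F i := hAi
        refine ⟨hA.1, hAs.subset, ?_, ?_⟩
        · exact (hS.early i his A hA.1.subset hAs.subset).1 hj
        · rw [hSdef]
          exact (hS.late i his A hA.1.subset hAs.subset).1 hj'
      · rintro ⟨hσA, hAi, hRA, hSA⟩
        rw [hSdef] at hSA
        refine ⟨⟨hσA, i, Nat.zero_le _, his, hAi⟩, ?_,
          (hS.early i his A hσA.subset hAi).2 hRA, (hS.late i his A hσA.subset hAi).2 hSA⟩
        refine lt_of_le_of_ne hAi fun h => hRA ?_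
        rw [h]
        exact hRsub.trans sdiff_subset
    rw [h8]
    exact h7

/-- The proper faces of a simplex with an even number of vertices. -/
theorem evenSphere_simplex {σ B : Finset U} (h : σ ⊂ B) (hB : Even (B.card - σ.card)) :
    EvenSphere {A | σ ⊂ A ∧ A ⊂ B} := by
  obtain ⟨s, F, R, h1, h2⟩ := shelled_simplex σ B h
  have hlt := card_lt_card h
  have h3 : {A | σ ⊂ A ∧ A ⊂ B} = fc σ F 0 s := by
    ext A
    exact (h2 A).symm
  rw [h3]
  refine evenSphere_shelled _ ?_ σ s F R h1
  obtain ⟨q, hq⟩ := hB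
  exact ⟨q - 1, by omega⟩

end Pool.Agent.Helper32.SP
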